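import Pool.Agent.Helper44_Art.Api

/-!
# Squad ART, module DIH
-/

set_option autoImplicit false

namespace Art.H51

/-- the infinite cyclic group -/
abbrev Z : Type := Multiplicative ℤ

/-- reduction mod `n` -/
def modHom (n : ℕ) : Z →* Multiplicative (ZMod n) :=
  AddMonoidHom.toMultiplicative (Int.castAddHom (ZMod n))

theorem mem_ker_modHom (n : ℕ) (x : Z) : x ∈ (modHom n).ker ↔ (n : ℤ) ∣ x.toAdd := by
  rw [MonoidHom.mem_ker]
  constructor
  · intro h
    have h' : ((x.toAdd : ℤ) : ZMod n) = 0 := congrArg Multiplicative.toAdd h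
    rwa [ZMod.intCast_zmod_eq_zero_iff_dvd] at h'
  · intro h
    have h' : ((x.toAdd : ℤ) : ZMod n) = 0 := by rwa [ZMod.intCast_zmod_eq_zero_iff_dvd]
    exact congrArg Multiplicative.ofAdd h'

theorem finiteIndex_modHom {n : ℕ} (hn : n ≠ 0) : (modHom n).ker.FiniteIndex := by
  have : NeZero n := ⟨hn⟩
  have : Finite (Multiplicative (ZMod n)) := inferInstanceAs (Finite (ZMod n))
  exact Subgroup.finiteIndex_ker _

theorem finiteIndex_comap {G G' : Type} [Group G] [Group G'] (φ : G →* G') (H : Subgroup G')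
    [h : H.FiniteIndex] : (H.comap φ).FiniteIndex := by
  constructor
  rw [Subgroup.index_comap]
  exact fun h0 => h.index_ne_zero (Subgroup.index_eq_zero_of_relIndex_eq_zero h0)

theorem rf_of_injective {G G' : Type} [Group G] [Group G'] (φ : G →* G')
    (hφ : Function.Injective φ) (h : RF G') : RF G := by
  rw [RF, Group.residuallyFinite_iff_exists_finiteIndex]
  intro g hg
  have hg' : φ g ≠ 1 := fun h1 => hg (hφ (by rw [h1, map_one]))
  obtain ⟨H, hH1, hH2⟩ := Group.residuallyFinite_iff_exists_finiteIndex.mp h (φ g) hg'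
  exact ⟨H.comap φ, finiteIndex_comap φ H, hH2⟩

theorem rf_Z : RF Z := by
  rw [RF, Group.residuallyFinite_iff_exists_finiteIndex]
  intro g hg
  have h0 : g.toAdd ≠ 0 := fun h => hg (congrArg Multiplicative.ofAdd h)
  refine ⟨(modHom (g.toAdd.natAbs + 1)).ker, finiteIndex_modHom (by omega), ?_⟩
  rw [mem_ker_modHom]
  intro h
  have := Int.natAbs_dvd_natAbs.mpr h
  rw [Int.natAbs_natCast] at this
  have h2 := Nat.le_of_dvd (Int.natAbs_pos.mpr h0) this
  omega

/-- what is needed of the two factors -/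
structure Good {G : Type} [Group G] (φ : Z →* G) : Prop where
  inj : Function.Injective φ
  rf : RF G
  closed : ∀ g : G, g ∉ φ.range → ∃ N : Subgroup G, N.Normal ∧ N.FiniteIndex ∧
    ∀ h : Z, g * (φ h)⁻¹ ∉ N
  full : ∀ L : Subgroup G, L.Normal → L.FiniteIndex → ∃ n0 : ℕ, n0 ≠ 0 ∧ ∀ n : ℕ, n0 ∣ n → n ≠ 0 →
    ∃ N : Subgroup G, (N.Normal ∧ N.FiniteIndex ∧ N ≤ L) ∧ N.comap φ = (modHom n).ker

theorem good_pow {m : ℕ} (hm : m ≠ 0) : Good (powMonoidHom m : Z →* Z) := by
  have hmz : (m : ℤ) ≠ 0 := by exact_mod_cast hm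
  refine ⟨?_, rf_Z, ?_, ?_⟩
  · intro x y hxy
    have h : (m : ℤ) * x.toAdd = m * y.toAdd := by
      have := congrArg Multiplicative.toAdd hxy
      simpa using this
    exact mul_left_cancel₀ (M₀ := ℤ) hmz h
  · intro g hg
    refine ⟨(modHom m).ker, inferInstance, finiteIndex_modHom hm, ?_⟩
    intro h hh
    rw [mem_ker_modHom] at hh
    apply hg
    have h1 : (m : ℤ) ∣ g.toAdd := by
      have e : g.toAdd = (g * ((powMonoidHom m : Z →* Z) h)⁻¹).toAdd + m * h.toAdd := by
        simp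
      rw [e]
      exact dvd_add hh (dvd_mul_right _ _)
    obtain ⟨t, ht⟩ := h1
    refine ⟨Multiplicative.ofAdd t, ?_⟩
    apply Multiplicative.toAdd.injective
    rw [ht]
    simp
  · intro L hL1 hL2
    refine ⟨L.index, hL2.index_ne_zero, ?_⟩
    intro n hn0 hn
    refine ⟨(modHom (m * n)).ker, ⟨inferInstance, finiteIndex_modHom (mul_ne_zero hm hn), ?_⟩, ?_⟩
    · intro x hx
      rw [mem_ker_modHom] at hx
      obtain ⟨t, ht⟩ := hx
      obtain ⟨q, hq⟩ := hn0
      have e : x = (Multiplicative.ofAdd ((m : ℤ) * q * t)) ^ L.index := by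
        apply Multiplicative.toAdd.injective
        rw [ht, hq]
        simp
        ring
      rw [e]
      exact Subgroup.pow_index_mem L _
    · ext x
      rw [Subgroup.mem_comap, mem_ker_modHom, mem_ker_modHom]
      have e : ((powMonoidHom m : Z →* Z) x).toAdd = m * x.toAdd := by simp
      rw [e, Nat.cast_mul]
      exact mul_dvd_mul_iff_left hmz

/-- the second inclusion -/
def incl2 : Z →* Z × Z := MonoidHom.inr Z Z

theorem good_incl : Good incl2 := by
  refine ⟨?_, ?_, ?_, ?_⟩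
  · intro x y hxy
    exact congrArg Prod.snd hxy
  · have := rf_Z
    exact inferInstanceAs (Group.ResiduallyFinite (Z × Z))
  · rintro ⟨x, y⟩ hg
    have hx : x.toAdd ≠ 0 := by
      intro h
      apply hg
      exact ⟨y, Prod.ext (congrArg Multiplicative.ofAdd h).symm rfl⟩
    have := finiteIndex_modHom (n := x.toAdd.natAbs + 1) (by omega)
    refine ⟨(modHom (x.toAdd.natAbs + 1)).ker.comap (MonoidHom.fst Z Z), inferInstance,
      finiteIndex_comap _ _, ?_⟩
    intro h hh
    rw [Subgroup.mem_comap] at hh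
    have e : (MonoidHom.fst Z Z) ((x, y) * (incl2 h)⁻¹) = x := by simp [incl2]
    rw [e, mem_ker_modHom] at hh
    have := Int.natAbs_dvd_natAbs.mpr hh
    rw [Int.natAbs_natCast] at this
    have h2 := Nat.le_of_dvd (Int.natAbs_pos.mpr hx) this
    omega
  · intro L hL1 hL2
    refine ⟨L.index, hL2.index_ne_zero, ?_⟩
    intro n hn0 hn
    have := finiteIndex_modHom hn
    have i1 := finiteIndex_comap (MonoidHom.fst Z Z) (modHom n).ker
    have i2 := finiteIndex_comap (MonoidHom.snd Z Z) (modHom n).ker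
    refine ⟨(modHom n).ker.comap (MonoidHom.fst Z Z) ⊓ (modHom n).ker.comap (MonoidHom.snd Z Z),
      ⟨inferInstance, inferInstance, ?_⟩, ?_⟩
    · rintro ⟨x, y⟩ hx
      rw [Subgroup.mem_inf, Subgroup.mem_comap, Subgroup.mem_comap, mem_ker_modHom,
        mem_ker_modHom] at hx
      obtain ⟨⟨t, ht⟩, ⟨s, hs⟩⟩ := hx
      obtain ⟨q, hq⟩ := hn0
      have ht' : x.toAdd = n * t := ht
      have hs' : y.toAdd = n * s := hs
      have e : ((x, y) : Z × Z) = (Multiplicative.ofAdd ((q : ℤ) * t),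
          Multiplicative.ofAdd ((q : ℤ) * s)) ^ L.index := by
        ext
        · change x.toAdd = (L.index : ℕ) • ((q : ℤ) * t)
          rw [ht', hq, nsmul_eq_mul, Nat.cast_mul, mul_assoc]
        · change y.toAdd = (L.index : ℕ) • ((q : ℤ) * s)
          rw [hs', hq, nsmul_eq_mul, Nat.cast_mul, mul_assoc]
      rw [e]
      exact Subgroup.pow_index_mem L _
    · ext x
      rw [Subgroup.mem_comap, Subgroup.mem_inf, Subgroup.mem_comap, Subgroup.mem_comap,
        mem_ker_modHom, mem_ker_modHom, mem_ker_modHom]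
      simp [incl2]

/-- the family of the two factors -/
def GB (G1 G2 : Type) (i : Bool) : Type := cond i G2 G1

instance grpGB {G1 G2 : Type} [h1 : Group G1] [h2 : Group G2] : ∀ i, Group (GB G1 G2 i)
  | false => h1
  | true => h2

/-- the two maps -/
def phiB {G1 G2 : Type} [Group G1] [Group G2] (φ1 : Z →* G1) (φ2 : Z →* G2) :
    ∀ i, Z →* GB G1 G2 i
  | false => φ1
  | true => φ2

theorem good_all {G1 G2 : Type} [Group G1] [Group G2] {φ1 : Z →* G1} {φ2 : Z →* G2}
    (h1 : Good φ1) (h2 : Good φ2) : ∀ i, Good (phiB φ1 φ2 i)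
  | false => h1
  | true => h2

theorem rf_amalgam (hP : PrinStmt) {G1 G2 : Type} [Group G1] [Group G2] {φ1 : Z →* G1}
    {φ2 : Z →* G2} (h1 : Good φ1) (h2 : Good φ2) : RF (Monoid.PushoutI (phiB φ1 φ2)) := by
  have hg := good_all h1 h2
  refine hP (phiB φ1 φ2) (fun i => (hg i).inj) (fun i => (hg i).rf) (fun i => (hg i).closed) ?_
  intro L hL
  choose n0 hn0 hN using fun i => (hg i).full (L i) (hL i).1 (hL i).2
  have hn : n0 false * n0 true ≠ 0 := mul_ne_zero (hn0 _) (hn0 _)
  have hd : ∀ i, n0 i ∣ n0 false * n0 true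
    | false => dvd_mul_right _ _
    | true => dvd_mul_left _ _
  choose N hN1 hN2 using fun i => hN i _ (hd i) hn
  exact ⟨N, hN1, fun i j => by rw [hN2, hN2]⟩

section
variable {G1 G2 : Type} [Group G1] [Group G2] (φ1 : Z →* G1) (φ2 : Z →* G2)

/-- first factor -/
def of1 : G1 →* Monoid.PushoutI (phiB φ1 φ2) := Monoid.PushoutI.of (φ := phiB φ1 φ2) false

/-- second factor -/
def of2 : G2 →* Monoid.PushoutI (phiB φ1 φ2) := Monoid.PushoutI.of (φ := phiB φ1 φ2) true

theorem of_eq (z : Z) : of1 φ1 φ2 (φ1 z) = of2 φ1 φ2 (φ2 z) := by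
  have e1 := Monoid.PushoutI.of_apply_eq_base (phiB φ1 φ2) false z
  have e2 := Monoid.PushoutI.of_apply_eq_base (phiB φ1 φ2) true z
  exact e1.trans e2.symm

theorem exists_lift {K : Type} [Group K] (f1 : G1 →* K) (f2 : G2 →* K)
    (h : f1.comp φ1 = f2.comp φ2) : ∃ Θ : Monoid.PushoutI (phiB φ1 φ2) →* K,
      (∀ x, Θ (of1 φ1 φ2 x) = f1 x) ∧ ∀ x, Θ (of2 φ1 φ2 x) = f2 x := by
  let f : ∀ i, GB G1 G2 i →* K
    | false => f1
    | true => f2
  have hf : ∀ i, (f i).comp (phiB φ1 φ2 i) = f1.comp φ1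
    | false => rfl
    | true => h.symm
  refine ⟨Monoid.PushoutI.lift f (f1.comp φ1) hf, ?_, ?_⟩
  · intro x
    exact Monoid.PushoutI.lift_of f (f1.comp φ1) hf (i := false) x
  · intro x
    exact Monoid.PushoutI.lift_of f (f1.comp φ1) hf (i := true) x

end

theorem dih (hP : PrinStmt) : DihStmt := by
  intro S M a b hab hS hM
  classical
  -- a hom from a good pushout which splits the Artin group
  have main : ∀ {P : Type} [Group P] (a' b' : P), RF P →
      alt (M.M a b) a' b' = alt (M.M a b) b' a' →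
      (∀ (D : Gp M →* P), D (gen M a) = a' → D (gen M b) = b' →
        ∃ Θ : P →* Gp M, Θ a' = gen M a ∧ Θ b' = gen M b) → RF (Gp M) := by
    intro P _ a' b' hRF hrel hΘ
    obtain ⟨Ψ, hΨ⟩ := lift M (fun x => if x = a then a' else b') (by
      intro s t _
      rcases hS s with rfl | rfl <;> rcases hS t with rfl | rfl
      · rfl
      · simp only [if_true, if_neg hab.symm]
        exact hrel
      · simp only [if_true, if_neg hab.symm]
        rw [M.symmetric]
        exact hrel.symm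
      · rfl)
    have ha : Ψ (gen M a) = a' := by rw [hΨ, if_pos rfl]
    have hb : Ψ (gen M b) = b' := by rw [hΨ, if_neg hab.symm]
    obtain ⟨Θ, h1, h2⟩ := hΘ Ψ ha hb
    have hid : Θ.comp Ψ = MonoidHom.id (Gp M) := by
      apply ext
      intro s
      rcases hS s with rfl | rfl
      · simp only [MonoidHom.comp_apply, MonoidHom.id_apply]
        rw [ha, h1]
      · simp only [MonoidHom.comp_apply, MonoidHom.id_apply]
        rw [hb, h2]
    refine rf_of_injective Ψ ?_ hRF
    intro x y hxy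
    have := congrArg Θ hxy
    have hx : Θ (Ψ x) = x := DFunLike.congr_fun hid x
    have hy : Θ (Ψ y) = y := DFunLike.congr_fun hid y
    rwa [hx, hy] at this
  have hR := relHolds M a b hM
  set A := gen M a with hA
  set B := gen M b with hB
  rcases Nat.even_or_odd' (M.M a b) with ⟨k, hk | hk⟩
  · -- even case
    have hk0 : k ≠ 0 := by rintro rfl; exact hM (by rw [hk])
    rw [hk, alt_two_mul, alt_two_mul] at hR
    set φ1 : Z →* Z × Z := incl2
    set φ2 : Z →* Z := powMonoidHom k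
    set a' := of1 φ1 φ2 (Multiplicative.ofAdd 1, 1) with ha'
    set d' := of2 φ1 φ2 (Multiplicative.ofAdd 1) with hd'
    have hdk : d' ^ k = of1 φ1 φ2 (1, Multiplicative.ofAdd 1) := by
      rw [hd', ← map_pow]
      exact (of_eq φ1 φ2 (Multiplicative.ofAdd 1)).symm
    have hcomm : a' * d' ^ k = d' ^ k * a' := by
      rw [hdk, ha', ← map_mul, ← map_mul, mul_comm]
    refine main (P := Monoid.PushoutI (phiB φ1 φ2)) a' (a'⁻¹ * d')
      (rf_amalgam hP good_incl (good_pow hk0)) ?_ ?_
    · rw [hk, alt_two_mul, alt_two_mul, mul_inv_cancel_left]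
      have e : (a'⁻¹ * d' * a') ^ k = a'⁻¹ * d' ^ k * a' := by
        have := conj_pow (a := a'⁻¹) (b := d') (i := k)
        simpa using this
      rw [e, mul_assoc, ← hcomm, inv_mul_cancel_left]
    · intro Ψ hΨa hΨb
      have hAk : Commute A ((A * B) ^ k) := by
        change A * (A * B) ^ k = (A * B) ^ k * A
        rw [mul_pow_mul, ← hR]
      have hcc : ∀ x y : Z, Commute (zpowersHom (Gp M) A x) (zpowersHom (Gp M) ((A * B) ^ k) y) := by
        intro x y
        rw [zpowersHom_apply, zpowersHom_apply]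
        exact hAk.zpow_zpow _ _
      obtain ⟨Θ, h1, h2⟩ := exists_lift φ1 φ2
        (MonoidHom.noncommCoprod (zpowersHom (Gp M) A) (zpowersHom (Gp M) ((A * B) ^ k)) hcc)
        (zpowersHom (Gp M) (A * B)) (by
          ext
          simp [φ1, φ2, incl2, zpowersHom_apply])
      have hΘa : Θ a' = A := by
        rw [ha', h1]
        simp [zpowersHom_apply]
      have hΘd : Θ d' = A * B := by
        rw [hd', h2]
        simp [zpowersHom_apply]
      refine ⟨Θ, hΘa, ?_⟩
      rw [map_mul, map_inv, hΘa, hΘd]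
      group
  · -- odd case
    rw [hk, alt_two_mul_add_one, alt_two_mul_add_one] at hR
    set φ1 : Z →* Z := powMonoidHom 2
    set φ2 : Z →* Z := powMonoidHom (2 * k + 1)
    set D' := of1 φ1 φ2 (Multiplicative.ofAdd 1) with hD'
    set d' := of2 φ1 φ2 (Multiplicative.ofAdd 1) with hd'
    have hDd : D' * D' = d' ^ (2 * k + 1) := by
      rw [← pow_two, hd', hD']
      have e1 := map_pow (of1 φ1 φ2) (Multiplicative.ofAdd (1 : ℤ)) 2
      have e2 := map_pow (of2 φ1 φ2) (Multiplicative.ofAdd (1 : ℤ)) (2 * k + 1)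
      rw [← e1, ← e2]
      exact of_eq φ1 φ2 (Multiplicative.ofAdd 1)
    refine main (P := Monoid.PushoutI (phiB φ1 φ2)) ((d' ^ k)⁻¹ * D') (D'⁻¹ * d' ^ (k + 1))
      (rf_amalgam hP (good_pow two_ne_zero) (good_pow (by omega))) ?_ ?_
    · have hprod : (d' ^ k)⁻¹ * D' * (D'⁻¹ * d' ^ (k + 1)) = d' := by
        rw [pow_succ]; group
      rw [hk, alt_two_mul_add_one, alt_two_mul_add_one, hprod, mul_inv_cancel_left]
      have e : (D'⁻¹ * d' ^ (k + 1) * ((d' ^ k)⁻¹ * D')) ^ k * (D'⁻¹ * d' ^ (k + 1)) =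
          (D'⁻¹ * d' ^ (k + 1)) * ((d' ^ k)⁻¹ * D' * (D'⁻¹ * d' ^ (k + 1))) ^ k :=
        mul_pow_mul _ _ _
      rw [e, hprod, mul_assoc, ← pow_add, show k + 1 + k = 2 * k + 1 by ring, ← hDd,
        inv_mul_cancel_left]
    · intro Ψ hΨa hΨb
      have hDD : ((A * B) ^ k * A) * ((A * B) ^ k * A) = (A * B) ^ (2 * k + 1) := by
        calc ((A * B) ^ k * A) * ((A * B) ^ k * A)
            = ((A * B) ^ k * A) * ((B * A) ^ k * B) := by rw [hR]
          _ = (A * B) ^ k * (A * (B * A) ^ k) * B := by group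
          _ = (A * B) ^ k * ((A * B) ^ k * A) * B := by rw [mul_pow_mul]
          _ = (A * B) ^ k * ((A * B) ^ k * (A * B)) := by group
          _ = (A * B) ^ (2 * k + 1) := by
            rw [← pow_succ, ← pow_add]; congr 1; ring
      obtain ⟨Θ, h1, h2⟩ := exists_lift φ1 φ2
        (zpowersHom (Gp M) ((A * B) ^ k * A)) (zpowersHom (Gp M) (A * B)) (by
          ext
          have e : (2 * (k : ℤ) + 1) = ((2 * k + 1 : ℕ) : ℤ) := by push_cast; ring
          simp [φ1, φ2, zpowersHom_apply, hDD, pow_two]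
          rw [e, zpow_natCast])
      have hΘD : Θ D' = (A * B) ^ k * A := by
        rw [hD', h1]
        simp [zpowersHom_apply]
      have hΘd : Θ d' = A * B := by
        rw [hd', h2]
        simp [zpowersHom_apply]
      refine ⟨Θ, ?_, ?_⟩
      · rw [map_mul, map_inv, map_pow, hΘD, hΘd, inv_mul_cancel_left]
      · rw [map_mul, map_inv, map_pow, hΘD, hΘd, pow_succ, mul_inv_rev]
        group

end Art.H51
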