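import Pool.Agent.Helper44_Art.Api

/-!
# Squad ART, module IND
-/

set_option autoImplicit false

namespace Art.H51

theorem triFree (hAm : Am1Stmt) (hB : Base1Stmt) (hD : DihStmt) : TriFreeStmt := by
  have key : ∀ n : ℕ, ∀ (S : Type) [Fintype S], Fintype.card S = n → ∀ (M : CoxeterMatrix S),
      (∀ x y z : S, x ≠ y → y ≠ z → x ≠ z → M.M x y = 0 ∨ M.M y z = 0 ∨ M.M x z = 0) →
      RF (Gp M) := by
    intro n
    induction n using Nat.strong_induction_on with
    | _ n ih =>
      intro S _ hcard M htri
      classical
      by_cases h0 : ∃ s t : S, M.M s t = 0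
      · obtain ⟨s, t, hst⟩ := h0
        have hdiag : ∀ x : S, M.M x x = 1 := fun x => M.diagonal x
        have hne : ∀ T : Set S, (∃ z, z ∉ T) → RF (Gp (res M T)) := by
          intro T hT
          obtain ⟨z, hz⟩ := hT
          have hc : Fintype.card T < n := by
            rw [← hcard]
            exact Fintype.card_subtype_lt (p := fun x => x ∈ T) hz
          refine ih _ hc T rfl (res M T) ?_
          intro x y w hxy hyw hxw
          exact htri x.1 y.1 w.1 (fun h => hxy (Subtype.ext h)) (fun h => hyw (Subtype.ext h))
            (fun h => hxw (Subtype.ext h))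
        refine hAm M {x | M.M s x ≠ 0} {x | x ≠ s} ?_ ?_ ?_ ?_ ?_
        · ext x
          simp only [Set.mem_union, Set.mem_ofPred_eq, Set.mem_univ, iff_true]
          by_cases hx : x = s
          · left
            rw [hx, hdiag]
            exact one_ne_zero
          · exact Or.inr hx
        · intro x _ hx2 y _ hy1
          simp only [Set.mem_ofPred_eq, not_not] at hx2 hy1
          rw [hx2]
          exact hy1
        · intro x hx y hy hxy
          left
          obtain ⟨hx1, hx2⟩ := hx
          obtain ⟨hy1, hy2⟩ := hy
          simp only [Set.mem_ofPred_eq] at hx1 hx2 hy1 hy2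
          rcases htri s x y (fun h => hx2 h.symm) hxy (fun h => hy2 h.symm) with h | h | h
          · exact absurd h hx1
          · exact h
          · exact absurd h hy1
        · exact hne _ ⟨t, by simp [hst]⟩
        · exact hne _ ⟨s, by simp⟩
      · push Not at h0
        by_cases hs : Subsingleton S
        · exact hB M hs
        · rw [not_subsingleton_iff_nontrivial] at hs
          obtain ⟨a, b, hab⟩ := exists_pair_ne S
          refine hD M a b hab ?_ (h0 a b)
          intro x
          by_contra hx
          push Not at hx
          rcases htri x a b hx.1 hab hx.2 with h | h | h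
          · exact h0 _ _ h
          · exact h0 _ _ h
          · exact h0 _ _ h
  intro S _ M h
  exact key _ S rfl M h

end Art.H51
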