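import Pool.Agent.Helper44_Art.Api

/-!
# Squad ART, module RET
-/

set_option autoImplicit false

namespace Art.H51

section
variable {F A : Type} [Group F] [Group A]

/-- right multiplication on `(F × A) × F` -/
def Rm (b : A) (d : F) (q : (F × A) × F) : (F × A) × F := ((q.1.1 * d, q.1.2 * b), q.2 * d)

theorem Rm_inv (b : A) (d : F) (q : (F × A) × F) : Rm b⁻¹ d⁻¹ (Rm b d q) = q := by
  simp [Rm]

/-- the base point -/
def q0 : (F × A) × F := ((1, 1), 1)

end

theorem perm_inv_apply {α : Type} (e : Equiv.Perm α) (x : α) : e⁻¹ (e x) = x :=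
  e.symm_apply_apply x

theorem perm_apply_inv {α : Type} (e : Equiv.Perm α) (x : α) : e (e⁻¹ x) = x :=
  e.apply_symm_apply x

theorem ret : RetStmt := by
  intro S M F A _ _ _ f T ν Φ _ h1 h2 ι X gA hcl hι hT hν
  have hcomm : ∀ h : Gp M, ∀ (b : A) (d : F) (q : (F × A) × F),
      Φ h (Rm b d q) = Rm b d (Φ h q) := by
    intro h
    have hh : h ∈ Subgroup.closure (Set.range (gen M)) := by
      rw [closure_gen]; trivial
    induction hh using Subgroup.closure_induction with
    | mem x hx =>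
      obtain ⟨s, rfl⟩ := hx
      rintro b d ⟨⟨g, a⟩, c⟩
      have hconj : g * d * ((c * d)⁻¹ * f s * (c * d)) * (g * d)⁻¹ =
          g * (c⁻¹ * f s * c) * g⁻¹ := by group
      have hconj2 : g * d * ((c * d)⁻¹ * f s * (c * d)) = g * (c⁻¹ * f s * c) * d := by group
      by_cases hm : g * (c⁻¹ * f s * c) * g⁻¹ ∈ T
      · rw [h1 s g a c hm]
        simp only [Rm]
        rw [h1 s (g * d) (a * b) (c * d) (by rw [hconj]; exact hm), hconj, hconj2]
        simp only [mul_assoc]
      · rw [h2 s g a c hm]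
        simp only [Rm]
        rw [h2 s (g * d) (a * b) (c * d) (by rw [hconj]; exact hm)]
        simp only [mul_assoc]
    | one => intro b d q; simp
    | mul x y _ _ hx hy =>
      intro b d q
      rw [map_mul, Equiv.Perm.mul_apply, Equiv.Perm.mul_apply, hy, hx]
    | inv x _ hx =>
      intro b d q
      have := hx b d ((Φ x)⁻¹ q)
      rw [perm_apply_inv] at this
      rw [map_inv, ← this, perm_inv_apply]
  -- products and inverses at the base point
  have hmul : ∀ (h k : Gp M) (d e : F) (a b : A), Φ h q0 = ((d, a), d) → Φ k q0 = ((e, b), e) →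
      Φ (h * k) q0 = ((d * e, a * b), d * e) := by
    intro h k d e a b hh hk
    have h3 : Φ k q0 = Rm b e q0 := by rw [hk]; simp [Rm, q0]
    rw [map_mul, Equiv.Perm.mul_apply, h3, hcomm, hh]
    rfl
  have hinv : ∀ (h : Gp M) (d : F) (a : A), Φ h q0 = ((d, a), d) →
      Φ h⁻¹ q0 = ((d⁻¹, a⁻¹), d⁻¹) := by
    intro h d a hh
    have h3 : Φ h q0 = Rm a d q0 := by rw [hh]; simp [Rm, q0]
    have h4 : Φ h⁻¹ (Rm a d q0) = q0 := by
      rw [← h3, map_inv, perm_inv_apply]
    rw [hcomm] at h4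
    have h5 := congrArg (Rm a⁻¹ d⁻¹) h4
    rw [Rm_inv] at h5
    rw [h5]
    simp [Rm, q0]
  -- the subgroup
  let H : Subgroup (Gp M) :=
    { carrier := {h | (Φ h q0).1.1 = (Φ h q0).2}
      one_mem' := by
        change (Φ 1 q0).1.1 = (Φ 1 q0).2
        simp [q0]
      mul_mem' := by
        intro h k hh hk
        have e1 : Φ h q0 = (((Φ h q0).2, (Φ h q0).1.2), (Φ h q0).2) := by
          conv_lhs => rw [← Prod.mk.eta (p := Φ h q0), ← Prod.mk.eta (p := (Φ h q0).1)]
          rw [show (Φ h q0).1.1 = (Φ h q0).2 from hh]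
        have e2 : Φ k q0 = (((Φ k q0).2, (Φ k q0).1.2), (Φ k q0).2) := by
          conv_lhs => rw [← Prod.mk.eta (p := Φ k q0), ← Prod.mk.eta (p := (Φ k q0).1)]
          rw [show (Φ k q0).1.1 = (Φ k q0).2 from hk]
        change (Φ (h * k) q0).1.1 = (Φ (h * k) q0).2
        rw [hmul h k _ _ _ _ e1 e2]
      inv_mem' := by
        intro h hh
        have e1 : Φ h q0 = (((Φ h q0).2, (Φ h q0).1.2), (Φ h q0).2) := by
          conv_lhs => rw [← Prod.mk.eta (p := Φ h q0), ← Prod.mk.eta (p := (Φ h q0).1)]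
          rw [show (Φ h q0).1.1 = (Φ h q0).2 from hh]
        change (Φ h⁻¹ q0).1.1 = (Φ h⁻¹ q0).2
        rw [hinv h _ _ e1] }
  have hH : ∀ h : Gp M, h ∈ H ↔ (Φ h q0).1.1 = (Φ h q0).2 := fun h => Iff.rfl
  have hHe : ∀ h : Gp M, h ∈ H → Φ h q0 = (((Φ h q0).2, (Φ h q0).1.2), (Φ h q0).2) := by
    intro h hh
    rw [hH] at hh
    conv_lhs => rw [← Prod.mk.eta (p := Φ h q0), ← Prod.mk.eta (p := (Φ h q0).1)]
    rw [hh]
  let ρ : H →* A :=
    { toFun := fun h => (Φ h.1 q0).1.2
      map_one' := by simp [q0]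
      map_mul' := by
        intro h k
        have := hmul h.1 k.1 _ _ _ _ (hHe h.1 h.2) (hHe k.1 k.2)
        simp only [Subgroup.coe_mul]
        rw [this] }
  have hfi : H.FiniteIndex := by
    have hfin : Finite (Gp M ⧸ H) := by
      refine Finite.of_injective
        (fun q : Gp M ⧸ H => (Φ q.out q0).1.1 * (Φ q.out q0).2⁻¹) ?_
      intro q q' hqq
      simp only at hqq
      have hmem : q.out⁻¹ * q'.out ∈ H := by
        generalize q.out = h at hqq
        generalize q'.out = k at hqq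
        set d : F := (Φ h q0).2⁻¹ * (Φ k q0).2 with hd
        set b : A := (Φ h q0).1.2⁻¹ * (Φ k q0).1.2 with hb
        have hd' : (Φ h q0).1.1 * d = (Φ k q0).1.1 := by
          rw [hd, ← mul_assoc, hqq]
          group
        have hk : Φ k q0 = Rm b d (Φ h q0) := by
          have e1 : (Φ h q0).1.2 * b = (Φ k q0).1.2 := by rw [hb]; group
          have e2 : (Φ h q0).2 * d = (Φ k q0).2 := by rw [hd]; group
          simp only [Rm, hd', e1, e2, Prod.mk.eta]
        rw [hH, map_mul, Equiv.Perm.mul_apply, hk, hcomm, map_inv, perm_inv_apply]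
        simp [Rm, q0]
      rw [← QuotientGroup.out_eq' q, ← QuotientGroup.out_eq' q']
      exact QuotientGroup.eq.mpr hmem
    exact Subgroup.finiteIndex_of_finite_quotient
  have hιq : ∀ a : A, ∃ d : F, Φ (ι a) q0 = ((d, a), d) := by
    intro a
    have ha : a ∈ Subgroup.closure (Set.range gA) := by rw [hcl]; trivial
    induction ha using Subgroup.closure_induction with
    | mem x hx =>
      obtain ⟨s, rfl⟩ := hx
      refine ⟨f s.1, ?_⟩
      rw [hι s]
      have e : (1 : F) * (1⁻¹ * f s.1 * 1) * 1⁻¹ = f s.1 := by simp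
      have := h1 s.1 1 1 1 (by rw [e]; exact hT s)
      rw [e, hν s] at this
      simpa [q0] using this
    | one => exact ⟨1, by simp [q0]⟩
    | mul x y _ _ hx hy =>
      obtain ⟨d, hd⟩ := hx
      obtain ⟨e, he⟩ := hy
      exact ⟨d * e, by rw [map_mul]; exact hmul _ _ _ _ _ _ hd he⟩
    | inv x _ hx =>
      obtain ⟨d, hd⟩ := hx
      exact ⟨d⁻¹, by rw [map_inv]; exact hinv _ _ _ hd⟩
  have hιH : ∀ a : A, ι a ∈ H := by
    intro a
    obtain ⟨d, hd⟩ := hιq a
    rw [hH, hd]
  refine ⟨H, hιH, ρ, hfi, ?_⟩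
  intro a
  obtain ⟨d, hd⟩ := hιq a
  change (Φ (ι a) q0).1.2 = a
  rw [hd]

end Art.H51
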